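import Mathlib

/-!
# Primes `p` with `4 p = x ^ 2 + 11 y ^ 2`: existence (Thue's lemma)
-/

set_option autoImplicit false

namespace Pool.Agent.D8ed36Ins

/-- Thue: small `a, b`, not both zero, with `a ≡ s b` modulo `p`, `a ^ 2 ≤ 3 p`, `3 b ^ 2 ≤ p` -/
theorem thue {p : ℕ} (hp : 0 < p) (s : ℤ) :
    ∃ a b : ℤ, (a ≠ 0 ∨ b ≠ 0) ∧ (p : ℤ) ∣ a - s * b ∧ a ^ 2 ≤ 3 * p ∧ 3 * b ^ 2 ≤ p := by
  set A : ℕ := Nat.sqrt (3 * p) with hA
  set B : ℕ := Nat.sqrt (p / 3) with hB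
  have hA1 : 3 * p < (A + 1) * (A + 1) := Nat.lt_succ_sqrt _
  have hB1 : p / 3 < (B + 1) * (B + 1) := Nat.lt_succ_sqrt _
  have hA2 : A * A ≤ 3 * p := Nat.sqrt_le _
  have hB2 : B * B ≤ p / 3 := Nat.sqrt_le _
  have hB3 : p < 3 * ((B + 1) * (B + 1)) := by omega
  have hAB : p < (A + 1) * (B + 1) := by
    by_contra hcon
    push Not at hcon
    have h1 : ((A + 1) * (B + 1)) * ((A + 1) * (B + 1)) ≤ p * p := Nat.mul_le_mul hcon hcon
    have h2 : (3 * p) * (3 * ((B + 1) * (B + 1))) < (3 * ((A + 1) * (B + 1))) * ((A + 1) * (B + 1)) := by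
      have h3 : (3 * p) * (3 * ((B + 1) * (B + 1))) <
          ((A + 1) * (A + 1)) * (3 * ((B + 1) * (B + 1))) := by
        apply Nat.mul_lt_mul_of_pos_right hA1
        positivity
      calc _ < ((A + 1) * (A + 1)) * (3 * ((B + 1) * (B + 1))) := h3
        _ = _ := by ring
    have h4 : (3 * p) * p < (3 * p) * (3 * ((B + 1) * (B + 1))) :=
      Nat.mul_lt_mul_of_pos_left hB3 (by omega)
    nlinarith
  have hp' : (p : ℤ) ≠ 0 := by exact_mod_cast hp.ne'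
  have : NeZero p := ⟨hp.ne'⟩
  set f : ℕ × ℕ → ZMod p := fun q => ((q.1 : ℤ) - s * (q.2 : ℤ) : ℤ) with hf
  set D : Finset (ℕ × ℕ) := Finset.range (A + 1) ×ˢ Finset.range (B + 1) with hD
  have hcard : (Finset.univ : Finset (ZMod p)).card < D.card := by
    rw [Finset.card_univ, ZMod.card, hD, Finset.card_product, Finset.card_range, Finset.card_range]
    exact hAB
  obtain ⟨q, hq, q', hq', hne, heq⟩ := Finset.exists_ne_map_eq_of_card_lt_of_maps_to
    (t := Finset.univ) (f := f) hcard (fun _ _ => Finset.mem_coe.mpr (Finset.mem_univ _))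
  obtain ⟨h1, h2⟩ := Finset.mem_product.1 hq
  obtain ⟨h3, h4⟩ := Finset.mem_product.1 hq'
  rw [Finset.mem_range] at h1 h2 h3 h4
  refine ⟨(q.1 : ℤ) - q'.1, (q.2 : ℤ) - q'.2, ?_, ?_, ?_, ?_⟩
  · by_contra hcon
    push Not at hcon
    apply hne
    apply Prod.ext
    · have := hcon.1
      omega
    · have := hcon.2
      omega
  · have h5 : (p : ℤ) ∣ ((q.1 : ℤ) - s * (q.2 : ℤ)) - ((q'.1 : ℤ) - s * (q'.2 : ℤ)) :=
      (ZMod.intCast_eq_intCast_iff_dvd_sub _ _ _).1 heq.symm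
    have e : (q.1 : ℤ) - q'.1 - s * ((q.2 : ℤ) - q'.2) =
        ((q.1 : ℤ) - s * (q.2 : ℤ)) - ((q'.1 : ℤ) - s * (q'.2 : ℤ)) := by ring
    rw [e]
    exact h5
  · have e1 : ((q.1 : ℤ) - q'.1) ^ 2 ≤ (A : ℤ) ^ 2 := by
      apply sq_le_sq'
      · omega
      · omega
    have e2 : (A : ℤ) ^ 2 ≤ 3 * p := by
      have : ((A * A : ℕ) : ℤ) ≤ ((3 * p : ℕ) : ℤ) := by exact_mod_cast hA2
      push_cast at this
      nlinarith
    linarith
  · have e1 : ((q.2 : ℤ) - q'.2) ^ 2 ≤ (B : ℤ) ^ 2 := by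
      apply sq_le_sq'
      · omega
      · omega
    have e2 : 3 * (B : ℤ) ^ 2 ≤ p := by
      have h6 : 3 * (B * B) ≤ p := by omega
      have : ((3 * (B * B) : ℕ) : ℤ) ≤ ((p : ℕ) : ℤ) := by exact_mod_cast h6
      push_cast at this
      nlinarith
    linarith

/-- if `p ∣ s ^ 2 + 11` then `4 p = x ^ 2 + 11 y ^ 2` -/
theorem rep {p : ℕ} (hp : p.Prime) (h2 : p ≠ 2) (s : ℤ) (hs : (p : ℤ) ∣ s ^ 2 + 11) :
    ∃ x y : ℤ, 4 * (p : ℤ) = x ^ 2 + 11 * y ^ 2 := by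
  obtain ⟨a, b, hne, hdvd, ha, hb⟩ := thue hp.pos s
  have hp0 : (0 : ℤ) < p := by exact_mod_cast hp.pos
  have hpodd : (p : ℤ) % 2 = 1 := by
    have := hp.eq_two_or_odd
    omega
  have hd : (p : ℤ) ∣ a ^ 2 + 11 * b ^ 2 := by
    have h1 : a ^ 2 + 11 * b ^ 2 = (a - s * b) * (a + s * b) + (s ^ 2 + 11) * b ^ 2 := by ring
    rw [h1]
    exact dvd_add (hdvd.mul_right _) (hs.mul_right _)
  obtain ⟨m, hm⟩ := hd
  have hpos : 0 < a ^ 2 + 11 * b ^ 2 := by
    rcases hne with h | h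
    · have := sq_pos_of_ne_zero h
      nlinarith [sq_nonneg b]
    · have := sq_pos_of_ne_zero h
      nlinarith [sq_nonneg a]
  have hm1 : 0 < m := by
    rw [hm] at hpos
    exact pos_of_mul_pos_right hpos hp0.le
  have hm2 : m < 7 := by
    by_contra hcon
    push Not at hcon
    nlinarith
  have hpar : m ≠ 2 ∧ m ≠ 6 := by
    have hodd : ∀ z : ℤ, z ^ 2 % 4 = 0 ∧ z % 2 = 0 ∨ z ^ 2 % 4 = 1 ∧ z % 2 = 1 := by
      intro z
      rcases Int.emod_two_eq_zero_or_one z with h | h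
      · left
        obtain ⟨w, rfl⟩ := Int.dvd_of_emod_eq_zero h
        refine ⟨?_, h⟩
        ring_nf
        omega
      · right
        obtain ⟨w, hw⟩ : ∃ w, z = 2 * w + 1 := ⟨z / 2, by omega⟩
        refine ⟨?_, h⟩
        rw [hw]
        ring_nf
        omega
    have hA := hodd a
    have hB := hodd b
    constructor
    · rintro rfl
      omega
    · rintro rfl
      omega
  interval_cases m
  · exact ⟨2 * a, 2 * b, by linear_combination (-4) * hm⟩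
  · exact absurd rfl hpar.1
  · have h3 : (3 : ℤ) ∣ (a - b) * (a + b) := ⟨(p : ℤ) - 4 * b ^ 2, by linear_combination hm⟩
    rcases (Int.prime_three).dvd_or_dvd h3 with ⟨c, hc⟩ | ⟨c, hc⟩
    · refine ⟨c + 4 * b, c, ?_⟩
      have ha' : a = 3 * c + b := by linarith
      rw [ha'] at hm
      nlinarith [hm]
    · refine ⟨c - 4 * b, c, ?_⟩
      have ha' : a = 3 * c - b := by linarith
      rw [ha'] at hm
      nlinarith [hm]
  · exact ⟨a, b, by linear_combination (-1) * hm⟩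
  · have h3 : (5 : ℤ) ∣ (a - 2 * b) * (a + 2 * b) := ⟨(p : ℤ) - 3 * b ^ 2, by linear_combination hm⟩
    have hp5 : Prime (5 : ℤ) := by norm_num
    rcases hp5.dvd_or_dvd h3 with ⟨c, hc⟩ | ⟨c, hc⟩
    · refine ⟨3 * c - b, c + b, ?_⟩
      have ha' : a = 5 * c + 2 * b := by linarith
      rw [ha'] at hm
      nlinarith [hm]
    · refine ⟨3 * c + b, c - b, ?_⟩
      have ha' : a = 5 * c - 2 * b := by linarith
      rw [ha'] at hm
      nlinarith [hm]
  · exact absurd rfl hpar.2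

end Pool.Agent.D8ed36Ins
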