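import Pool.Agent.Lib_MP_d8ed36_q1.Final
import Pool.Agent.Lib_MP_d8ed36_q1.InertC
import Pool.Agent.Lib_MP_d8ed36_ins.Rep

/-!
# MP_d8ed36_nt: the sum `S(p)` modulo `p ^ 2` for every odd prime `p`

`S(p) = ∑_(k < p) C(2k,k) ^ 2 C(3k,k) / 64 ^ k`. Everything is stated with integers: `S(p)` is multiplied by
`64 ^ (p - 1)`, which is prime to `p`.
-/

set_option autoImplicit false

namespace Pool.Agent.D8ed36InsQ1

/-- `S(p) ≡ w` modulo `p ^ 2`, multiplied by `64 ^ (p - 1)`: the integer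
`∑_(k < p) C(2k,k) ^ 2 C(3k,k) 64 ^ (p - 1 - k) - 64 ^ (p - 1) w` is divisible by `p ^ 2` -/
def SCong (p : ℕ) (w : ℤ) : Prop :=
  (p : ℤ) ^ 2 ∣ (∑ k ∈ Finset.range p, (Nat.choose (2 * k) k : ℤ) ^ 2 * Nat.choose (3 * k) k * 64 ^ (p - 1 - k)) -
    64 ^ (p - 1) * w

open _root_.SunQ1 Pool.Agent.D8ed36Ins

private theorem sint_cast (p : ℕ) : (∑ k ∈ Finset.range p,
    (Nat.choose (2 * k) k : ℤ) ^ 2 * Nat.choose (3 * k) k * 64 ^ (p - 1 - k)) = (Sint p : ℤ) := by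
  unfold Sint
  push_cast
  rfl

private theorem jac_one {p : ℕ} (h : p % 11 = 1 ∨ p % 11 = 3 ∨ p % 11 = 4 ∨ p % 11 = 5 ∨ p % 11 = 9) :
    jacobiSym (p : ℤ) 11 = 1 := by
  have h1 : (p : ℤ) % (11 : ℕ) = ((p % 11 : ℕ) : ℤ) := by push_cast; rfl
  rw [jacobiSym.mod_left, h1]
  rcases h with h | h | h | h | h <;> rw [h] <;> norm_num

private theorem jac_neg {p : ℕ} (h : p % 11 = 2 ∨ p % 11 = 6 ∨ p % 11 = 7 ∨ p % 11 = 8 ∨ p % 11 = 10) :
    jacobiSym (p : ℤ) 11 = -1 := by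
  have h1 : (p : ℤ) % (11 : ℕ) = ((p % 11 : ℕ) : ℤ) := by push_cast; rfl
  rw [jacobiSym.mod_left, h1]
  rcases h with h | h | h | h | h <;> rw [h] <;> norm_num

private theorem exists_int {p : ℕ} [Fact p.Prime] (h5 : 5 ≤ p) (h11 : p ≠ 11)
    (hj : jacobiSym (p : ℤ) 11 = 1) : ∃ s : ℤ, (p : ℤ) ∣ s ^ 2 + 11 := by
  obtain ⟨s, hs⟩ := exists_sqrt h5 h11 hj
  refine ⟨(ZMod.cast (PadicInt.toZMod s) : ℤ), ?_⟩
  rw [← ZMod.intCast_zmod_eq_zero_iff_dvd _ p]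
  have h1 := congrArg (PadicInt.toZMod (p := p)) hs
  rw [map_pow, map_neg, map_ofNat] at h1
  push_cast
  rw [h1]
  ring

private theorem small {p : ℕ} (hp : p.Prime) (h2 : p ≠ 2) (h : p < 5) : p = 3 := by
  have := hp.two_le
  have h4 : p ≠ 4 := by
    rintro rfl
    exact absurd hp (by norm_num)
  omega

private theorem case3 (x y : ℤ) (h : 4 * ((3 : ℕ) : ℤ) = x ^ 2 + 11 * y ^ 2) : x ^ 2 = 1 := by
  push_cast at h
  have hy : y ^ 2 ≤ 1 := by nlinarith [sq_nonneg x]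
  have hy0 : 0 ≤ y ^ 2 := sq_nonneg y
  have h01 : y ^ 2 = 0 ∨ y ^ 2 = 1 := by omega
  rcases h01 with h0 | h1
  · exfalso
    have hx : x ^ 2 = 12 := by linarith
    have hx1 : x ≤ 3 := by nlinarith
    have hx2 : -3 ≤ x := by nlinarith
    interval_cases x <;> omega
  · linarith

/-- For every odd prime `p`: if `p ≡ 1, 3, 4, 5, 9` modulo `11` then `4 p = x ^ 2 + 11 y ^ 2` has an integer solution
and `S(p) ≡ x ^ 2 - 2 p` modulo `p ^ 2` for every solution; if `p ≡ 2, 6, 7, 8, 10` modulo `11` then `S(p) ≡ 0`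
modulo `p ^ 2`; and `S(11) ≡ -11` modulo `11 ^ 2`. -/
theorem result :
    (∀ p : ℕ, p.Prime → p ≠ 2 →
      ((p % 11 = 1 ∨ p % 11 = 3 ∨ p % 11 = 4 ∨ p % 11 = 5 ∨ p % 11 = 9) →
        (∃ x y : ℤ, 4 * (p : ℤ) = x ^ 2 + 11 * y ^ 2) ∧
          ∀ x y : ℤ, 4 * (p : ℤ) = x ^ 2 + 11 * y ^ 2 → SCong p (x ^ 2 - 2 * p)) ∧
      ((p % 11 = 2 ∨ p % 11 = 6 ∨ p % 11 = 7 ∨ p % 11 = 8 ∨ p % 11 = 10) → SCong p 0)) ∧
    SCong 11 (-11) := by
  refine ⟨?_, ?_⟩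
  · intro p hp h2
    have : Fact p.Prime := ⟨hp⟩
    rcases lt_or_ge p 5 with hlt | h5
    · obtain rfl := small hp h2 hlt
      refine ⟨fun _ => ⟨⟨1, 1, by norm_num⟩, fun x y hxy => ?_⟩, fun h => ?_⟩
      · have hx := case3 x y hxy
        unfold SCong
        rw [hx]
        decide
      · omega
    · refine ⟨fun h => ?_, fun h => ?_⟩
      · have h11 : p ≠ 11 := by omega
        have hj := jac_one h
        obtain ⟨s, hs⟩ := exists_int h5 h11 hj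
        refine ⟨rep hp h2 s hs, fun x y hxy => ?_⟩
        unfold SCong
        rw [sint_cast]
        exact split_dvd h5 h11 hj hxy
      · have h0 := inert_dvd h5 (no_sqrt h5 (jac_neg h))
        unfold SCong
        rw [sint_cast, mul_zero, sub_zero]
        exact h0
  · unfold SCong
    decide +kernel

end Pool.Agent.D8ed36InsQ1
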